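import Mathlib

/-!
# Polynomial inequalities on the cube, certificates in the Bernstein basis

The functions are quadratic in `S` and in `T`; here the four corners of the rectangle of `S, T`.
-/

namespace Pool.Agent.Helper33.FL

/-- `a G3 G4 - (A^2 G4 + B^2 G3) / 4 - b V + k` -/
noncomputable def FF (r1 r2 r4 a b k S T : ℝ) : ℝ :=
  a * ((r1 * r2 - S ^ 2 / 4) * (r1 * r4 - T ^ 2 / 4))
    - ((3 - r1 - r2) ^ 2 * (r1 * r4 - T ^ 2 / 4) + (3 - r1 - r4) ^ 2 * (r1 * r2 - S ^ 2 / 4)) / 4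
    - b * (((3 - r1 - r4) * S + (3 - r1 - r2) * T - 2 * (3 / 2 - r1) * r1) ^ 2 / 16) + k

theorem cert_F1_00 {x y z : ℝ} (hx : 0 ≤ x) (hy : 0 ≤ y) (hz : 0 ≤ z) (hx' : 0 ≤ 1 / 2 - x)
    (hy' : 0 ≤ 1 / 2 - y) (hz' : 0 ≤ 1 / 2 - z) :
    0 ≤ FF (1 + x) (1 + y) (1 + z) 1 1 0 0 0 := by
  have key : ∀ x' y' z' : ℝ, 0 ≤ x' → 0 ≤ y' → 0 ≤ z' → 0 ≤
      112 * x' ^ 4 * y' ^ 2 * z' ^ 2 + 384 * x' ^ 4 * y' ^ 2 * z * z'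
      + 256 * x' ^ 4 * y' ^ 2 * z ^ 2 + 384 * x' ^ 4 * y * y' * z' ^ 2
      + 1216 * x' ^ 4 * y * y' * z * z' + 792 * x' ^ 4 * y * y' * z ^ 2
      + 256 * x' ^ 4 * y ^ 2 * z' ^ 2 + 792 * x' ^ 4 * y ^ 2 * z * z'
      + 512 * x' ^ 4 * y ^ 2 * z ^ 2 + 784 * x * x' ^ 3 * y' ^ 2 * z' ^ 2
      + 2352 * x * x' ^ 3 * y' ^ 2 * z * z' + 1496 * x * x' ^ 3 * y' ^ 2 * z ^ 2
      + 2352 * x * x' ^ 3 * y * y' * z' ^ 2 + 6848 * x * x' ^ 3 * y * y' * z * z'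
      + 4316 * x * x' ^ 3 * y * y' * z ^ 2 + 1496 * x * x' ^ 3 * y ^ 2 * z' ^ 2
      + 4316 * x * x' ^ 3 * y ^ 2 * z * z' + 2712 * x * x' ^ 3 * y ^ 2 * z ^ 2
      + 1788 * x ^ 2 * x' ^ 2 * y' ^ 2 * z' ^ 2 + 4992 * x ^ 2 * x' ^ 2 * y' ^ 2 * z * z'
      + 3084 * x ^ 2 * x' ^ 2 * y' ^ 2 * z ^ 2 + 4992 * x ^ 2 * x' ^ 2 * y * y' * z' ^ 2
      + 13776 * x ^ 2 * x' ^ 2 * y * y' * z * z' + 8484 * x ^ 2 * x' ^ 2 * y * y' * z ^ 2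
      + 3084 * x ^ 2 * x' ^ 2 * y ^ 2 * z' ^ 2 + 8484 * x ^ 2 * x' ^ 2 * y ^ 2 * z * z'
      + 5220 * x ^ 2 * x' ^ 2 * y ^ 2 * z ^ 2 + 1648 * x ^ 3 * x' * y' ^ 2 * z' ^ 2
      + 4412 * x ^ 3 * x' * y' ^ 2 * z * z' + 2676 * x ^ 3 * x' * y' ^ 2 * z ^ 2
      + 4412 * x ^ 3 * x' * y * y' * z' ^ 2 + 11760 * x ^ 3 * x' * y * y' * z * z'
      + 7128 * x ^ 3 * x' * y * y' * z ^ 2 + 2676 * x ^ 3 * x' * y ^ 2 * z' ^ 2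
      + 7128 * x ^ 3 * x' * y ^ 2 * z * z' + 4320 * x ^ 3 * x' * y ^ 2 * z ^ 2
      + 528 * x ^ 4 * y' ^ 2 * z' ^ 2 + 1380 * x ^ 4 * y' ^ 2 * z * z'
      + 828 * x ^ 4 * y' ^ 2 * z ^ 2 + 1380 * x ^ 4 * y * y' * z' ^ 2
      + 3600 * x ^ 4 * y * y' * z * z' + 2160 * x ^ 4 * y * y' * z ^ 2
      + 828 * x ^ 4 * y ^ 2 * z' ^ 2 + 2160 * x ^ 4 * y ^ 2 * z * z'
      + 1296 * x ^ 4 * y ^ 2 * z ^ 2 := by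
    intro x' y' z' h1 h2 h3
    positivity
  have h := key _ _ _ hx' hy' hz'
  refine h.trans (le_of_eq ?_)
  unfold FF
  ring

theorem cert_F1_10 {x y z : ℝ} (hx : 0 ≤ x) (hy : 0 ≤ y) (hz : 0 ≤ z) (hx' : 0 ≤ 1 / 2 - x)
    (hy' : 0 ≤ 1 / 2 - y) (hz' : 0 ≤ 1 / 2 - z) :
    0 ≤ FF (1 + x) (1 + y) (1 + z) 1 1 0 (1 + x + y) 0 := by
  have key : ∀ x' y' z' : ℝ, 0 ≤ x' → 0 ≤ y' → 0 ≤ z' → 0 ≤
      40 * x' ^ 3 * y' ^ 2 * z' ^ 2 + 136 * x' ^ 3 * y' ^ 2 * z * z'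
      + 88 * x' ^ 3 * y' ^ 2 * z ^ 2 + 136 * x' ^ 3 * y * y' * z' ^ 2
      + 428 * x' ^ 3 * y * y' * z * z' + 272 * x' ^ 3 * y * y' * z ^ 2
      + 80 * x' ^ 3 * y ^ 2 * z' ^ 2 + 252 * x' ^ 3 * y ^ 2 * z * z'
      + 160 * x' ^ 3 * y ^ 2 * z ^ 2 + 232 * x * x' ^ 2 * y' ^ 2 * z' ^ 2
      + 680 * x * x' ^ 2 * y' ^ 2 * z * z' + 420 * x * x' ^ 2 * y' ^ 2 * z ^ 2
      + 664 * x * x' ^ 2 * y * y' * z' ^ 2 + 1910 * x * x' ^ 2 * y * y' * z * z'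
      + 1176 * x * x' ^ 2 * y * y' * z ^ 2 + 376 * x * x' ^ 2 * y ^ 2 * z' ^ 2
      + 1090 * x * x' ^ 2 * y ^ 2 * z * z' + 672 * x * x' ^ 2 * y ^ 2 * z ^ 2
      + 362 * x ^ 2 * x' * y' ^ 2 * z' ^ 2 + 994 * x ^ 2 * x' * y' ^ 2 * z * z'
      + 600 * x ^ 2 * x' * y' ^ 2 * z ^ 2 + 958 * x ^ 2 * x' * y * y' * z' ^ 2
      + 2622 * x ^ 2 * x' * y * y' * z * z' + 1584 * x ^ 2 * x' * y * y' * z ^ 2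
      + 532 * x ^ 2 * x' * y ^ 2 * z' ^ 2 + 1468 * x ^ 2 * x' * y ^ 2 * z * z'
      + 888 * x ^ 2 * x' * y ^ 2 * z ^ 2 + 156 * x ^ 3 * y' ^ 2 * z' ^ 2
      + 420 * x ^ 3 * y' ^ 2 * z * z' + 252 * x ^ 3 * y' ^ 2 * z ^ 2
      + 402 * x ^ 3 * y * y' * z' ^ 2 + 1080 * x ^ 3 * y * y' * z * z'
      + 648 * x ^ 3 * y * y' * z ^ 2 + 222 * x ^ 3 * y ^ 2 * z' ^ 2
      + 600 * x ^ 3 * y ^ 2 * z * z' + 360 * x ^ 3 * y ^ 2 * z ^ 2 := by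
    intro x' y' z' h1 h2 h3
    positivity
  have h := key _ _ _ hx' hy' hz'
  refine h.trans (le_of_eq ?_)
  unfold FF
  ring

theorem cert_F1_11 {x y z : ℝ} (hx : 0 ≤ x) (hy : 0 ≤ y) (hz : 0 ≤ z) (hx' : 0 ≤ 1 / 2 - x)
    (hy' : 0 ≤ 1 / 2 - y) (hz' : 0 ≤ 1 / 2 - z) :
    0 ≤ FF (1 + x) (1 + y) (1 + z) 1 1 0 (1 + x + y) (1 + x + z) := by
  have key : ∀ x' y' z' : ℝ, 0 ≤ x' → 0 ≤ y' → 0 ≤ z' → 0 ≤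
      32 * x' ^ 4 * y' ^ 2 * z' ^ 2 + 144 * x' ^ 4 * y' ^ 2 * z * z'
      + 92 * x' ^ 4 * y' ^ 2 * z ^ 2 + 144 * x' ^ 4 * y * y' * z' ^ 2
      + 512 * x' ^ 4 * y * y' * z * z' + 316 * x' ^ 4 * y * y' * z ^ 2
      + 92 * x' ^ 4 * y ^ 2 * z' ^ 2 + 316 * x' ^ 4 * y ^ 2 * z * z'
      + 191 * x' ^ 4 * y ^ 2 * z ^ 2 + 272 * x * x' ^ 3 * y' ^ 2 * z' ^ 2
      + 920 * x * x' ^ 3 * y' ^ 2 * z * z' + 556 * x * x' ^ 3 * y' ^ 2 * z ^ 2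
      + 920 * x * x' ^ 3 * y * y' * z' ^ 2 + 2872 * x * x' ^ 3 * y * y' * z * z'
      + 1710 * x * x' ^ 3 * y * y' * z ^ 2 + 556 * x * x' ^ 3 * y ^ 2 * z' ^ 2
      + 1710 * x * x' ^ 3 * y ^ 2 * z * z' + 1000 * x * x' ^ 3 * y ^ 2 * z ^ 2
      + 628 * x ^ 2 * x' ^ 2 * y' ^ 2 * z' ^ 2 + 1908 * x ^ 2 * x' ^ 2 * y' ^ 2 * z * z'
      + 1123 * x ^ 2 * x' ^ 2 * y' ^ 2 * z ^ 2 + 1908 * x ^ 2 * x' ^ 2 * y * y' * z' ^ 2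
      + 5564 * x ^ 2 * x' ^ 2 * y * y' * z * z' + 3240 * x ^ 2 * x' ^ 2 * y * y' * z ^ 2
      + 1123 * x ^ 2 * x' ^ 2 * y ^ 2 * z' ^ 2 + 3240 * x ^ 2 * x' ^ 2 * y ^ 2 * z * z'
      + 1852 * x ^ 2 * x' ^ 2 * y ^ 2 * z ^ 2 + 544 * x ^ 3 * x' * y' ^ 2 * z' ^ 2
      + 1582 * x ^ 3 * x' * y' ^ 2 * z * z' + 920 * x ^ 3 * x' * y' ^ 2 * z ^ 2
      + 1582 * x ^ 3 * x' * y * y' * z' ^ 2 + 4456 * x ^ 3 * x' * y * y' * z * z'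
      + 2560 * x ^ 3 * x' * y * y' * z ^ 2 + 920 * x ^ 3 * x' * y ^ 2 * z' ^ 2
      + 2560 * x ^ 3 * x' * y ^ 2 * z * z' + 1440 * x ^ 3 * x' * y ^ 2 * z ^ 2
      + 159 * x ^ 4 * y' ^ 2 * z' ^ 2 + 456 * x ^ 4 * y' ^ 2 * z * z'
      + 264 * x ^ 4 * y' ^ 2 * z ^ 2 + 456 * x ^ 4 * y * y' * z' ^ 2
      + 1264 * x ^ 4 * y * y' * z * z' + 720 * x ^ 4 * y * y' * z ^ 2
      + 264 * x ^ 4 * y ^ 2 * z' ^ 2 + 720 * x ^ 4 * y ^ 2 * z * z'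
      + 400 * x ^ 4 * y ^ 2 * z ^ 2 := by
    intro x' y' z' h1 h2 h3
    positivity
  have h := key _ _ _ hx' hy' hz'
  refine h.trans (le_of_eq ?_)
  unfold FF
  ring

theorem cert_F2_00 {x y z : ℝ} (hx : 0 ≤ x) (hy : 0 ≤ y) (hz : 0 ≤ z) (hx' : 0 ≤ 1 / 2 - x)
    (hy' : 0 ≤ 1 / 2 - y) (hz' : 0 ≤ 1 / 2 - z) :
    0 ≤ FF (1 + x) (1 + y) (1 + z) (250 / 321) (321 / 392) 0 0 0 := by
  have key : ∀ x' y' z' : ℝ, 0 ≤ x' → 0 ≤ y' → 0 ≤ z' → 0 ≤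
      916606 / 15729 * x' ^ 4 * y' ^ 2 * z' ^ 2 + 3904540 / 15729 * x' ^ 4 * y' ^ 2 * z * z'
      + 912090 / 5243 * x' ^ 4 * y' ^ 2 * z ^ 2 + 3904540 / 15729 * x' ^ 4 * y * y' * z' ^ 2
      + 13742392 / 15729 * x' ^ 4 * y * y' * z * z' + 3069564 / 5243 * x' ^ 4 * y * y' * z ^ 2
      + 912090 / 5243 * x' ^ 4 * y ^ 2 * z' ^ 2 + 3069564 / 5243 * x' ^ 4 * y ^ 2 * z * z'
      + 2031642 / 5243 * x' ^ 4 * y ^ 2 * z ^ 2 + 8015162 / 15729 * x * x' ^ 3 * y' ^ 2 * z' ^ 2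
      + 26135300 / 15729 * x * x' ^ 3 * y' ^ 2 * z * z'
      + 5662550 / 5243 * x * x' ^ 3 * y' ^ 2 * z ^ 2
      + 26135300 / 15729 * x * x' ^ 3 * y * y' * z' ^ 2
      + 80427176 / 15729 * x * x' ^ 3 * y * y' * z * z'
      + 17153552 / 5243 * x * x' ^ 3 * y * y' * z ^ 2
      + 5662550 / 5243 * x * x' ^ 3 * y ^ 2 * z' ^ 2
      + 17153552 / 5243 * x * x' ^ 3 * y ^ 2 * z * z'
      + 10924758 / 5243 * x * x' ^ 3 * y ^ 2 * z ^ 2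
      + 39975479 / 31458 * x ^ 2 * x' ^ 2 * y' ^ 2 * z' ^ 2
      + 58128607 / 15729 * x ^ 2 * x' ^ 2 * y' ^ 2 * z * z'
      + 24168925 / 10486 * x ^ 2 * x' ^ 2 * y' ^ 2 * z ^ 2
      + 58128607 / 15729 * x ^ 2 * x' ^ 2 * y * y' * z' ^ 2
      + 165603742 / 15729 * x ^ 2 * x' ^ 2 * y * y' * z * z'
      + 34252145 / 5243 * x ^ 2 * x' ^ 2 * y * y' * z ^ 2
      + 24168925 / 10486 * x ^ 2 * x' ^ 2 * y ^ 2 * z' ^ 2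
      + 34252145 / 5243 * x ^ 2 * x' ^ 2 * y ^ 2 * z * z'
      + 42447885 / 10486 * x ^ 2 * x' ^ 2 * y ^ 2 * z ^ 2
      + 130896 / 107 * x ^ 3 * x' * y' ^ 2 * z' ^ 2
      + 358484 / 107 * x ^ 3 * x' * y' ^ 2 * z * z' + 218172 / 107 * x ^ 3 * x' * y' ^ 2 * z ^ 2
      + 358484 / 107 * x ^ 3 * x' * y * y' * z' ^ 2
      + 974320 / 107 * x ^ 3 * x' * y * y' * z * z' + 592296 / 107 * x ^ 3 * x' * y * y' * z ^ 2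
      + 218172 / 107 * x ^ 3 * x' * y ^ 2 * z' ^ 2 + 592296 / 107 * x ^ 3 * x' * y ^ 2 * z * z'
      + 360000 / 107 * x ^ 3 * x' * y ^ 2 * z ^ 2 + 42864 / 107 * x ^ 4 * y' ^ 2 * z' ^ 2
      + 113580 / 107 * x ^ 4 * y' ^ 2 * z * z' + 68148 / 107 * x ^ 4 * y' ^ 2 * z ^ 2
      + 113580 / 107 * x ^ 4 * y * y' * z' ^ 2 + 300000 / 107 * x ^ 4 * y * y' * z * z'
      + 180000 / 107 * x ^ 4 * y * y' * z ^ 2 + 68148 / 107 * x ^ 4 * y ^ 2 * z' ^ 2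
      + 180000 / 107 * x ^ 4 * y ^ 2 * z * z' + 108000 / 107 * x ^ 4 * y ^ 2 * z ^ 2 := by
    intro x' y' z' h1 h2 h3
    positivity
  have h := key _ _ _ hx' hy' hz'
  refine h.trans (le_of_eq ?_)
  unfold FF
  ring

theorem cert_F2_10 {x y z : ℝ} (hx : 0 ≤ x) (hy : 0 ≤ y) (hz : 0 ≤ z) (hx' : 0 ≤ 1 / 2 - x)
    (hy' : 0 ≤ 1 / 2 - y) (hz' : 0 ≤ 1 / 2 - z) :
    0 ≤ FF (1 + x) (1 + y) (1 + z) (250 / 321) (321 / 392) 0 (1 + x + y) 0 := by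
  have key : ∀ x' y' z' : ℝ, 0 ≤ x' → 0 ≤ y' → 0 ≤ z' → 0 ≤
      4016 / 107 * x' ^ 4 * y' ^ 2 * z' ^ 2 + 17744 / 107 * x' ^ 4 * y' ^ 2 * z * z'
      + 1185165 / 10486 * x' ^ 4 * y' ^ 2 * z ^ 2 + 55504 / 321 * x' ^ 4 * y * y' * z' ^ 2
      + 9544753 / 15729 * x' ^ 4 * y * y' * z * z' + 4153389 / 10486 * x' ^ 4 * y * y' * z ^ 2
      + 1128717 / 10486 * x' ^ 4 * y ^ 2 * z' ^ 2 + 3885747 / 10486 * x' ^ 4 * y ^ 2 * z * z'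
      + 10089837 / 41944 * x' ^ 4 * y ^ 2 * z ^ 2 + 108736 / 321 * x * x' ^ 3 * y' ^ 2 * z' ^ 2
      + 17575657 / 15729 * x * x' ^ 3 * y' ^ 2 * z * z'
      + 7448055 / 10486 * x * x' ^ 3 * y' ^ 2 * z ^ 2
      + 17618887 / 15729 * x * x' ^ 3 * y * y' * z' ^ 2
      + 109040969 / 31458 * x * x' ^ 3 * y * y' * z * z'
      + 6521069 / 2996 * x * x' ^ 3 * y * y' * z ^ 2
      + 6873681 / 10486 * x * x' ^ 3 * y ^ 2 * z' ^ 2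
      + 42582795 / 20972 * x * x' ^ 3 * y ^ 2 * z * z'
      + 13364997 / 10486 * x * x' ^ 3 * y ^ 2 * z ^ 2
      + 25928111 / 31458 * x ^ 2 * x' ^ 2 * y' ^ 2 * z' ^ 2
      + 38258839 / 15729 * x ^ 2 * x' ^ 2 * y' ^ 2 * z * z'
      + 62700565 / 41944 * x ^ 2 * x' ^ 2 * y' ^ 2 * z ^ 2
      + 12529896 / 5243 * x ^ 2 * x' ^ 2 * y * y' * z' ^ 2
      + 72387229 / 10486 * x ^ 2 * x' ^ 2 * y * y' * z * z'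
      + 44379159 / 10486 * x ^ 2 * x' ^ 2 * y * y' * z ^ 2
      + 170441503 / 125832 * x ^ 2 * x' ^ 2 * y ^ 2 * z' ^ 2
      + 17700313 / 4494 * x ^ 2 * x' ^ 2 * y ^ 2 * z * z'
      + 25348437 / 10486 * x ^ 2 * x' ^ 2 * y ^ 2 * z ^ 2
      + 7936095 / 10486 * x ^ 3 * x' * y' ^ 2 * z' ^ 2
      + 44489483 / 20972 * x ^ 3 * x' * y' ^ 2 * z * z'
      + 137172 / 107 * x ^ 3 * x' * y' ^ 2 * z ^ 2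
      + 43191243 / 20972 * x ^ 3 * x' * y * y' * z' ^ 2
      + 60035811 / 10486 * x ^ 3 * x' * y * y' * z * z'
      + 370296 / 107 * x ^ 3 * x' * y * y' * z ^ 2
      + 18044231 / 15729 * x ^ 3 * x' * y ^ 2 * z' ^ 2
      + 50536922 / 15729 * x ^ 3 * x' * y ^ 2 * z * z'
      + 208000 / 107 * x ^ 3 * x' * y ^ 2 * z ^ 2 + 9815061 / 41944 * x ^ 4 * y' ^ 2 * z' ^ 2
      + 68580 / 107 * x ^ 4 * y' ^ 2 * z * z' + 41148 / 107 * x ^ 4 * y' ^ 2 * z ^ 2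
      + 3236211 / 5243 * x ^ 4 * y * y' * z' ^ 2 + 180000 / 107 * x ^ 4 * y * y' * z * z'
      + 108000 / 107 * x ^ 4 * y * y' * z ^ 2 + 1786446 / 5243 * x ^ 4 * y ^ 2 * z' ^ 2
      + 100000 / 107 * x ^ 4 * y ^ 2 * z * z' + 60000 / 107 * x ^ 4 * y ^ 2 * z ^ 2 := by
    intro x' y' z' h1 h2 h3
    positivity
  have h := key _ _ _ hx' hy' hz'
  refine h.trans (le_of_eq ?_)
  unfold FF
  ring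

theorem cert_F2_11 {x y z : ℝ} (hx : 0 ≤ x) (hy : 0 ≤ y) (hz : 0 ≤ z) (hx' : 0 ≤ 1 / 2 - x)
    (hy' : 0 ≤ 1 / 2 - y) (hz' : 0 ≤ 1 / 2 - z) :
    0 ≤ FF (1 + x) (1 + y) (1 + z) (250 / 321) (321 / 392) 0 (1 + x + y) (1 + x + z) := by
  have key : ∀ x' y' z' : ℝ, 0 ≤ x' → 0 ≤ y' → 0 ≤ z' → 0 ≤
      15978 / 5243 * x' ^ 4 * y' ^ 2 * z' ^ 2 + 395732 / 5243 * x' ^ 4 * y' ^ 2 * z * z'
      + 288810 / 5243 * x' ^ 4 * y' ^ 2 * z ^ 2 + 395732 / 5243 * x' ^ 4 * y * y' * z' ^ 2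
      + 5462458 / 15729 * x' ^ 4 * y * y' * z * z' + 1184922 / 5243 * x' ^ 4 * y * y' * z ^ 2
      + 288810 / 5243 * x' ^ 4 * y ^ 2 * z' ^ 2 + 1184922 / 5243 * x' ^ 4 * y ^ 2 * z * z'
      + 1488573 / 10486 * x' ^ 4 * y ^ 2 * z ^ 2 + 722770 / 5243 * x * x' ^ 3 * y' ^ 2 * z' ^ 2
      + 9398014 / 15729 * x * x' ^ 3 * y' ^ 2 * z * z'
      + 1987848 / 5243 * x * x' ^ 3 * y' ^ 2 * z ^ 2
      + 9398014 / 15729 * x * x' ^ 3 * y * y' * z' ^ 2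
      + 10946499 / 5243 * x * x' ^ 3 * y * y' * z * z'
      + 6694098 / 5243 * x * x' ^ 3 * y * y' * z ^ 2
      + 1987848 / 5243 * x * x' ^ 3 * y ^ 2 * z' ^ 2
      + 6694098 / 5243 * x * x' ^ 3 * y ^ 2 * z * z'
      + 3998157 / 5243 * x * x' ^ 3 * y ^ 2 * z ^ 2
      + 12638939 / 31458 * x ^ 2 * x' ^ 2 * y' ^ 2 * z' ^ 2
      + 7100454 / 5243 * x ^ 2 * x' ^ 2 * y' ^ 2 * z * z'
      + 4270864 / 5243 * x ^ 2 * x' ^ 2 * y' ^ 2 * z ^ 2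
      + 7100454 / 5243 * x ^ 2 * x' ^ 2 * y * y' * z' ^ 2
      + 22025760 / 5243 * x ^ 2 * x' ^ 2 * y * y' * z * z'
      + 39005702 / 15729 * x ^ 2 * x' ^ 2 * y * y' * z ^ 2
      + 4270864 / 5243 * x ^ 2 * x' ^ 2 * y ^ 2 * z' ^ 2
      + 39005702 / 15729 * x ^ 2 * x' ^ 2 * y ^ 2 * z * z'
      + 15030213 / 10486 * x ^ 2 * x' ^ 2 * y ^ 2 * z ^ 2
      + 1992027 / 5243 * x ^ 3 * x' * y' ^ 2 * z' ^ 2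
      + 6144546 / 5243 * x ^ 3 * x' * y' ^ 2 * z * z'
      + 10826108 / 15729 * x ^ 3 * x' * y' ^ 2 * z ^ 2
      + 6144546 / 5243 * x ^ 3 * x' * y * y' * z' ^ 2
      + 17996415 / 5243 * x ^ 3 * x' * y * y' * z * z'
      + 10403586 / 5243 * x ^ 3 * x' * y * y' * z ^ 2
      + 10826108 / 15729 * x ^ 3 * x' * y ^ 2 * z' ^ 2
      + 10403586 / 5243 * x ^ 3 * x' * y ^ 2 * z * z'
      + 120000 / 107 * x ^ 3 * x' * y ^ 2 * z ^ 2 + 1213797 / 10486 * x ^ 4 * y' ^ 2 * z' ^ 2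
      + 1810170 / 5243 * x ^ 4 * y' ^ 2 * z * z' + 1051446 / 5243 * x ^ 4 * y' ^ 2 * z ^ 2
      + 1810170 / 5243 * x ^ 4 * y * y' * z' ^ 2 + 5154612 / 5243 * x ^ 4 * y * y' * z * z'
      + 60000 / 107 * x ^ 4 * y * y' * z ^ 2 + 1051446 / 5243 * x ^ 4 * y ^ 2 * z' ^ 2
      + 60000 / 107 * x ^ 4 * y ^ 2 * z * z' + 100000 / 321 * x ^ 4 * y ^ 2 * z ^ 2 := by
    intro x' y' z' h1 h2 h3
    positivity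
  have h := key _ _ _ hx' hy' hz'
  refine h.trans (le_of_eq ?_)
  unfold FF
  ring

theorem cert_F3_00 {x y z : ℝ} (hx : 0 ≤ x) (hy : 0 ≤ y) (hz : 0 ≤ z) (hx' : 0 ≤ 1 / 2 - x)
    (hy' : 0 ≤ 1 / 2 - y) (hz' : 0 ≤ 1 / 2 - z) :
    0 ≤ FF (1 + x) (1 + y) (1 + z) 0 1 (466 / 1000 * (1 + x) + (1 - x - y) * (1 - x - z) * (1 + x) / 8) 0 0 := by
  have key : ∀ x' y' z' : ℝ, 0 ≤ x' → 0 ≤ y' → 0 ≤ z' → 0 ≤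
      912 / 125 * x' ^ 4 * y' ^ 2 * z' ^ 2 + 3824 / 125 * x' ^ 4 * y' ^ 2 * z * z'
      + 912 / 125 * x' ^ 4 * y' ^ 2 * z ^ 2 + 3824 / 125 * x' ^ 4 * y * y' * z' ^ 2
      + 20648 / 125 * x' ^ 4 * y * y' * z * z' + 11824 / 125 * x' ^ 4 * y * y' * z ^ 2
      + 912 / 125 * x' ^ 4 * y ^ 2 * z' ^ 2 + 11824 / 125 * x' ^ 4 * y ^ 2 * z * z'
      + 7912 / 125 * x' ^ 4 * y ^ 2 * z ^ 2 + 19104 / 125 * x * x' ^ 3 * y' ^ 2 * z' ^ 2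
      + 48208 / 125 * x * x' ^ 3 * y' ^ 2 * z * z' + 20104 / 125 * x * x' ^ 3 * y' ^ 2 * z ^ 2
      + 48208 / 125 * x * x' ^ 3 * y * y' * z' ^ 2 + 152916 / 125 * x * x' ^ 3 * y * y' * z * z'
      + 82208 / 125 * x * x' ^ 3 * y * y' * z ^ 2 + 20104 / 125 * x * x' ^ 3 * y ^ 2 * z' ^ 2
      + 82208 / 125 * x * x' ^ 3 * y ^ 2 * z * z' + 48604 / 125 * x * x' ^ 3 * y ^ 2 * z ^ 2
      + 11268 / 25 * x ^ 2 * x' ^ 2 * y' ^ 2 * z' ^ 2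
      + 26036 / 25 * x ^ 2 * x' ^ 2 * y' ^ 2 * z * z'
      + 11768 / 25 * x ^ 2 * x' ^ 2 * y' ^ 2 * z ^ 2
      + 26036 / 25 * x ^ 2 * x' ^ 2 * y * y' * z' ^ 2
      + 69772 / 25 * x ^ 2 * x' ^ 2 * y * y' * z * z'
      + 36236 / 25 * x ^ 2 * x' ^ 2 * y * y' * z ^ 2
      + 11768 / 25 * x ^ 2 * x' ^ 2 * y ^ 2 * z' ^ 2
      + 36236 / 25 * x ^ 2 * x' ^ 2 * y ^ 2 * z * z'
      + 19968 / 25 * x ^ 2 * x' ^ 2 * y ^ 2 * z ^ 2 + 56516 / 125 * x ^ 3 * x' * y' ^ 2 * z' ^ 2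
      + 125532 / 125 * x ^ 3 * x' * y' ^ 2 * z * z' + 58016 / 125 * x ^ 3 * x' * y' ^ 2 * z ^ 2
      + 125532 / 125 * x ^ 3 * x' * y * y' * z' ^ 2
      + 309564 / 125 * x ^ 3 * x' * y * y' * z * z' + 156532 / 125 * x ^ 3 * x' * y * y' * z ^ 2
      + 58016 / 125 * x ^ 3 * x' * y ^ 2 * z' ^ 2 + 156532 / 125 * x ^ 3 * x' * y ^ 2 * z * z'
      + 82016 / 125 * x ^ 3 * x' * y ^ 2 * z ^ 2 + 17868 / 125 * x ^ 4 * y' ^ 2 * z' ^ 2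
      + 38736 / 125 * x ^ 4 * y' ^ 2 * z * z' + 17868 / 125 * x ^ 4 * y' ^ 2 * z ^ 2
      + 38736 / 125 * x ^ 4 * y * y' * z' ^ 2 + 90972 / 125 * x ^ 4 * y * y' * z * z'
      + 44736 / 125 * x ^ 4 * y * y' * z ^ 2 + 17868 / 125 * x ^ 4 * y ^ 2 * z' ^ 2
      + 44736 / 125 * x ^ 4 * y ^ 2 * z * z' + 22368 / 125 * x ^ 4 * y ^ 2 * z ^ 2 := by
    intro x' y' z' h1 h2 h3
    positivity
  have h := key _ _ _ hx' hy' hz'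
  refine h.trans (le_of_eq ?_)
  unfold FF
  ring

theorem cert_F3_10 {x y z : ℝ} (hx : 0 ≤ x) (hy : 0 ≤ y) (hz : 0 ≤ z) (hx' : 0 ≤ 1 / 2 - x)
    (hy' : 0 ≤ 1 / 2 - y) (hz' : 0 ≤ 1 / 2 - z) :
    0 ≤ FF (1 + x) (1 + y) (1 + z) 0 1 (466 / 1000 * (1 + x) + (1 - x - y) * (1 - x - z) * (1 + x) / 8) (1 + x + y) 0 := by
  have key : ∀ x' y' z' : ℝ, 0 ≤ x' → 0 ≤ y' → 0 ≤ z' → 0 ≤
      2456 / 125 * x' ^ 3 * y' ^ 2 * z' ^ 2 + 4912 / 125 * x' ^ 3 * y' ^ 2 * z * z'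
      + 1456 / 125 * x' ^ 3 * y' ^ 2 * z ^ 2 + 6912 / 125 * x' ^ 3 * y * y' * z' ^ 2
      + 17824 / 125 * x' ^ 3 * y * y' * z * z' + 8412 / 125 * x' ^ 3 * y * y' * z ^ 2
      + 3456 / 125 * x' ^ 3 * y ^ 2 * z' ^ 2 + 10412 / 125 * x' ^ 3 * y ^ 2 * z * z'
      + 5456 / 125 * x' ^ 3 * y ^ 2 * z ^ 2 + 14096 / 125 * x * x' ^ 2 * y' ^ 2 * z' ^ 2
      + 29192 / 125 * x * x' ^ 2 * y' ^ 2 * z * z' + 11596 / 125 * x * x' ^ 2 * y' ^ 2 * z ^ 2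
      + 34192 / 125 * x * x' ^ 2 * y * y' * z' ^ 2 + 82884 / 125 * x * x' ^ 2 * y * y' * z * z'
      + 39942 / 125 * x * x' ^ 2 * y * y' * z ^ 2 + 16596 / 125 * x * x' ^ 2 * y ^ 2 * z' ^ 2
      + 44942 / 125 * x * x' ^ 2 * y ^ 2 * z * z' + 23096 / 125 * x * x' ^ 2 * y ^ 2 * z ^ 2
      + 21574 / 125 * x ^ 2 * x' * y' ^ 2 * z' ^ 2 + 45648 / 125 * x ^ 2 * x' * y' ^ 2 * z * z'
      + 20074 / 125 * x ^ 2 * x' * y' ^ 2 * z ^ 2 + 48648 / 125 * x ^ 2 * x' * y * y' * z' ^ 2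
      + 114546 / 125 * x ^ 2 * x' * y * y' * z * z' + 55898 / 125 * x ^ 2 * x' * y * y' * z ^ 2
      + 23074 / 125 * x ^ 2 * x' * y ^ 2 * z' ^ 2 + 58898 / 125 * x ^ 2 * x' * y ^ 2 * z * z'
      + 29824 / 125 * x ^ 2 * x' * y ^ 2 * z ^ 2 + 8934 / 125 * x ^ 3 * y' ^ 2 * z' ^ 2
      + 19368 / 125 * x ^ 3 * y' ^ 2 * z * z' + 8934 / 125 * x ^ 3 * y' ^ 2 * z ^ 2
      + 19368 / 125 * x ^ 3 * y * y' * z' ^ 2 + 45486 / 125 * x ^ 3 * y * y' * z * z'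
      + 22368 / 125 * x ^ 3 * y * y' * z ^ 2 + 8934 / 125 * x ^ 3 * y ^ 2 * z' ^ 2
      + 22368 / 125 * x ^ 3 * y ^ 2 * z * z' + 11184 / 125 * x ^ 3 * y ^ 2 * z ^ 2 := by
    intro x' y' z' h1 h2 h3
    positivity
  have h := key _ _ _ hx' hy' hz'
  refine h.trans (le_of_eq ?_)
  unfold FF
  ring

theorem cert_F3_11 {x y z : ℝ} (hx : 0 ≤ x) (hy : 0 ≤ y) (hz : 0 ≤ z) (hx' : 0 ≤ 1 / 2 - x)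
    (hy' : 0 ≤ 1 / 2 - y) (hz' : 0 ≤ 1 / 2 - z) :
    0 ≤ FF (1 + x) (1 + y) (1 + z) 0 1 (466 / 1000 * (1 + x) + (1 - x - y) * (1 - x - z) * (1 + x) / 8) (1 + x + y) (1 + x + z) := by
  have key : ∀ x' y' z' : ℝ, 0 ≤ x' → 0 ≤ y' → 0 ≤ z' → 0 ≤
      4912 / 125 * x' ^ 4 * y' ^ 2 * z' ^ 2 + 11824 / 125 * x' ^ 4 * y' ^ 2 * z * z'
      + 5912 / 125 * x' ^ 4 * y' ^ 2 * z ^ 2 + 11824 / 125 * x' ^ 4 * y * y' * z' ^ 2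
      + 34648 / 125 * x' ^ 4 * y * y' * z * z' + 19824 / 125 * x' ^ 4 * y * y' * z ^ 2
      + 5912 / 125 * x' ^ 4 * y ^ 2 * z' ^ 2 + 19824 / 125 * x' ^ 4 * y ^ 2 * z * z'
      + 11662 / 125 * x' ^ 4 * y ^ 2 * z ^ 2 + 31104 / 125 * x * x' ^ 3 * y' ^ 2 * z' ^ 2
      + 72208 / 125 * x * x' ^ 3 * y' ^ 2 * z * z' + 36104 / 125 * x * x' ^ 3 * y' ^ 2 * z ^ 2
      + 72208 / 125 * x * x' ^ 3 * y * y' * z' ^ 2 + 193916 / 125 * x * x' ^ 3 * y * y' * z * z'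
      + 106708 / 125 * x * x' ^ 3 * y * y' * z ^ 2 + 36104 / 125 * x * x' ^ 3 * y ^ 2 * z' ^ 2
      + 106708 / 125 * x * x' ^ 3 * y ^ 2 * z * z' + 59604 / 125 * x * x' ^ 3 * y ^ 2 * z ^ 2
      + 12868 / 25 * x ^ 2 * x' ^ 2 * y' ^ 2 * z' ^ 2
      + 29436 / 25 * x ^ 2 * x' ^ 2 * y' ^ 2 * z * z'
      + 14718 / 25 * x ^ 2 * x' ^ 2 * y' ^ 2 * z ^ 2
      + 29436 / 25 * x ^ 2 * x' ^ 2 * y * y' * z' ^ 2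
      + 75172 / 25 * x ^ 2 * x' ^ 2 * y * y' * z * z'
      + 40236 / 25 * x ^ 2 * x' ^ 2 * y * y' * z ^ 2
      + 14718 / 25 * x ^ 2 * x' ^ 2 * y ^ 2 * z' ^ 2
      + 40236 / 25 * x ^ 2 * x' ^ 2 * y ^ 2 * z * z'
      + 21568 / 25 * x ^ 2 * x' ^ 2 * y ^ 2 * z ^ 2 + 53516 / 125 * x ^ 3 * x' * y' ^ 2 * z' ^ 2
      + 122032 / 125 * x ^ 3 * x' * y' ^ 2 * z * z' + 61016 / 125 * x ^ 3 * x' * y' ^ 2 * z ^ 2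
      + 122032 / 125 * x ^ 3 * x' * y * y' * z' ^ 2
      + 302564 / 125 * x ^ 3 * x' * y * y' * z * z' + 158532 / 125 * x ^ 3 * x' * y * y' * z ^ 2
      + 61016 / 125 * x ^ 3 * x' * y ^ 2 * z' ^ 2 + 158532 / 125 * x ^ 3 * x' * y ^ 2 * z * z'
      + 82016 / 125 * x ^ 3 * x' * y ^ 2 * z ^ 2 + 15618 / 125 * x ^ 4 * y' ^ 2 * z' ^ 2
      + 35736 / 125 * x ^ 4 * y' ^ 2 * z * z' + 17868 / 125 * x ^ 4 * y' ^ 2 * z ^ 2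
      + 35736 / 125 * x ^ 4 * y * y' * z' ^ 2 + 86972 / 125 * x ^ 4 * y * y' * z * z'
      + 44736 / 125 * x ^ 4 * y * y' * z ^ 2 + 17868 / 125 * x ^ 4 * y ^ 2 * z' ^ 2
      + 44736 / 125 * x ^ 4 * y ^ 2 * z * z' + 22368 / 125 * x ^ 4 * y ^ 2 * z ^ 2 := by
    intro x' y' z' h1 h2 h3
    positivity
  have h := key _ _ _ hx' hy' hz'
  refine h.trans (le_of_eq ?_)
  unfold FF
  ring

theorem cert_F4_00 {x y z : ℝ} (hx : 0 ≤ x) (hy : 0 ≤ y) (hz : 0 ≤ z) (hx' : 0 ≤ 1 / 2 - x)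
    (hy' : 0 ≤ 1 / 2 - y) (hz' : 0 ≤ 1 / 2 - z) :
    0 ≤ FF (1 + x) (1 + y) (1 + z) 1 1 ((1 - x - y) * (1 - x - z) * (1 + x) / 8 - (1 + x) ^ 2 / 16) 0 0 := by
  have key : ∀ x' y' z' : ℝ, 0 ≤ x' → 0 ≤ y' → 0 ≤ z' → 0 ≤
      128 * x' ^ 4 * y' ^ 2 * z' ^ 2 + 400 * x' ^ 4 * y' ^ 2 * z * z'
      + 256 * x' ^ 4 * y' ^ 2 * z ^ 2 + 400 * x' ^ 4 * y * y' * z' ^ 2
      + 1224 * x' ^ 4 * y * y' * z * z' + 784 * x' ^ 4 * y * y' * z ^ 2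
      + 256 * x' ^ 4 * y ^ 2 * z' ^ 2 + 784 * x' ^ 4 * y ^ 2 * z * z'
      + 504 * x' ^ 4 * y ^ 2 * z ^ 2 + 816 * x * x' ^ 3 * y' ^ 2 * z' ^ 2
      + 2352 * x * x' ^ 3 * y' ^ 2 * z * z' + 1464 * x * x' ^ 3 * y' ^ 2 * z ^ 2
      + 2352 * x * x' ^ 3 * y * y' * z' ^ 2 + 6756 * x * x' ^ 3 * y * y' * z * z'
      + 4224 * x * x' ^ 3 * y * y' * z ^ 2 + 1464 * x * x' ^ 3 * y ^ 2 * z' ^ 2
      + 4224 * x * x' ^ 3 * y ^ 2 * z * z' + 2652 * x * x' ^ 3 * y ^ 2 * z ^ 2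
      + 1776 * x ^ 2 * x' ^ 2 * y' ^ 2 * z' ^ 2 + 4876 * x ^ 2 * x' ^ 2 * y' ^ 2 * z * z'
      + 2980 * x ^ 2 * x' ^ 2 * y' ^ 2 * z ^ 2 + 4876 * x ^ 2 * x' ^ 2 * y * y' * z' ^ 2
      + 13420 * x ^ 2 * x' ^ 2 * y * y' * z * z' + 8244 * x ^ 2 * x' ^ 2 * y * y' * z ^ 2
      + 2980 * x ^ 2 * x' ^ 2 * y ^ 2 * z' ^ 2 + 8244 * x ^ 2 * x' ^ 2 * y ^ 2 * z * z'
      + 5084 * x ^ 2 * x' ^ 2 * y ^ 2 * z ^ 2 + 1596 * x ^ 3 * x' * y' ^ 2 * z' ^ 2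
      + 4252 * x ^ 3 * x' * y' ^ 2 * z * z' + 2568 * x ^ 3 * x' * y' ^ 2 * z ^ 2
      + 4252 * x ^ 3 * x' * y * y' * z' ^ 2 + 11372 * x ^ 3 * x' * y * y' * z * z'
      + 6900 * x ^ 3 * x' * y * y' * z ^ 2 + 2568 * x ^ 3 * x' * y ^ 2 * z' ^ 2
      + 6900 * x ^ 3 * x' * y ^ 2 * z * z' + 4200 * x ^ 3 * x' * y ^ 2 * z ^ 2
      + 504 * x ^ 4 * y' ^ 2 * z' ^ 2 + 1320 * x ^ 4 * y' ^ 2 * z * z'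
      + 792 * x ^ 4 * y' ^ 2 * z ^ 2 + 1320 * x ^ 4 * y * y' * z' ^ 2
      + 3468 * x ^ 4 * y * y' * z * z' + 2088 * x ^ 4 * y * y' * z ^ 2
      + 792 * x ^ 4 * y ^ 2 * z' ^ 2 + 2088 * x ^ 4 * y ^ 2 * z * z'
      + 1260 * x ^ 4 * y ^ 2 * z ^ 2 := by
    intro x' y' z' h1 h2 h3
    positivity
  have h := key _ _ _ hx' hy' hz'
  refine h.trans (le_of_eq ?_)
  unfold FF
  ring

theorem cert_F4_10 {x y z : ℝ} (hx : 0 ≤ x) (hy : 0 ≤ y) (hz : 0 ≤ z) (hx' : 0 ≤ 1 / 2 - x)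
    (hy' : 0 ≤ 1 / 2 - y) (hz' : 0 ≤ 1 / 2 - z) :
    0 ≤ FF (1 + x) (1 + y) (1 + z) 1 1 ((1 - x - y) * (1 - x - z) * (1 + x) / 8 - (1 + x) ^ 2 / 16) (1 + x + y) 0 := by
  have key : ∀ x' y' z' : ℝ, 0 ≤ x' → 0 ≤ y' → 0 ≤ z' → 0 ≤
      48 * x' ^ 3 * y' ^ 2 * z' ^ 2 + 144 * x' ^ 3 * y' ^ 2 * z * z'
      + 88 * x' ^ 3 * y' ^ 2 * z ^ 2 + 144 * x' ^ 3 * y * y' * z' ^ 2
      + 432 * x' ^ 3 * y * y' * z * z' + 268 * x' ^ 3 * y * y' * z ^ 2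
      + 80 * x' ^ 3 * y ^ 2 * z' ^ 2 + 248 * x' ^ 3 * y ^ 2 * z * z'
      + 156 * x' ^ 3 * y ^ 2 * z ^ 2 + 240 * x * x' ^ 2 * y' ^ 2 * z' ^ 2
      + 672 * x * x' ^ 2 * y' ^ 2 * z * z' + 404 * x * x' ^ 2 * y' ^ 2 * z ^ 2
      + 656 * x * x' ^ 2 * y * y' * z' ^ 2 + 1860 * x * x' ^ 2 * y * y' * z * z'
      + 1134 * x * x' ^ 2 * y * y' * z ^ 2 + 360 * x * x' ^ 2 * y ^ 2 * z' ^ 2
      + 1048 * x * x' ^ 2 * y ^ 2 * z * z' + 646 * x * x' ^ 2 * y ^ 2 * z ^ 2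
      + 348 * x ^ 2 * x' * y' ^ 2 * z' ^ 2 + 944 * x ^ 2 * x' * y' ^ 2 * z * z'
      + 564 * x ^ 2 * x' * y' ^ 2 * z ^ 2 + 908 * x ^ 2 * x' * y * y' * z' ^ 2
      + 2494 * x ^ 2 * x' * y * y' * z * z' + 1506 * x ^ 2 * x' * y * y' * z ^ 2
      + 496 * x ^ 2 * x' * y ^ 2 * z' ^ 2 + 1390 * x ^ 2 * x' * y ^ 2 * z * z'
      + 846 * x ^ 2 * x' * y ^ 2 * z ^ 2 + 144 * x ^ 3 * y' ^ 2 * z' ^ 2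
      + 390 * x ^ 3 * y' ^ 2 * z * z' + 234 * x ^ 3 * y' ^ 2 * z ^ 2
      + 372 * x ^ 3 * y * y' * z' ^ 2 + 1014 * x ^ 3 * y * y' * z * z'
      + 612 * x ^ 3 * y * y' * z ^ 2 + 204 * x ^ 3 * y ^ 2 * z' ^ 2
      + 564 * x ^ 3 * y ^ 2 * z * z' + 342 * x ^ 3 * y ^ 2 * z ^ 2 := by
    intro x' y' z' h1 h2 h3
    positivity
  have h := key _ _ _ hx' hy' hz'
  refine h.trans (le_of_eq ?_)
  unfold FF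
  ring

theorem cert_F4_11 {x y z : ℝ} (hx : 0 ≤ x) (hy : 0 ≤ y) (hz : 0 ≤ z) (hx' : 0 ≤ 1 / 2 - x)
    (hy' : 0 ≤ 1 / 2 - y) (hz' : 0 ≤ 1 / 2 - z) :
    0 ≤ FF (1 + x) (1 + y) (1 + z) 1 1 ((1 - x - y) * (1 - x - z) * (1 + x) / 8 - (1 + x) ^ 2 / 16) (1 + x + y) (1 + x + z) := by
  have key : ∀ x' y' z' : ℝ, 0 ≤ x' → 0 ≤ y' → 0 ≤ z' → 0 ≤
      48 * x' ^ 4 * y' ^ 2 * z' ^ 2 + 160 * x' ^ 4 * y' ^ 2 * z * z'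
      + 92 * x' ^ 4 * y' ^ 2 * z ^ 2 + 160 * x' ^ 4 * y * y' * z' ^ 2
      + 520 * x' ^ 4 * y * y' * z * z' + 308 * x' ^ 4 * y * y' * z ^ 2
      + 92 * x' ^ 4 * y ^ 2 * z' ^ 2 + 308 * x' ^ 4 * y ^ 2 * z * z'
      + 183 * x' ^ 4 * y ^ 2 * z ^ 2 + 304 * x * x' ^ 3 * y' ^ 2 * z' ^ 2
      + 920 * x * x' ^ 3 * y' ^ 2 * z * z' + 524 * x * x' ^ 3 * y' ^ 2 * z ^ 2
      + 920 * x * x' ^ 3 * y * y' * z' ^ 2 + 2780 * x * x' ^ 3 * y * y' * z * z'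
      + 1618 * x * x' ^ 3 * y * y' * z ^ 2 + 524 * x * x' ^ 3 * y ^ 2 * z' ^ 2
      + 1618 * x * x' ^ 3 * y ^ 2 * z * z' + 940 * x * x' ^ 3 * y ^ 2 * z ^ 2
      + 616 * x ^ 2 * x' ^ 2 * y' ^ 2 * z' ^ 2 + 1792 * x ^ 2 * x' ^ 2 * y' ^ 2 * z * z'
      + 1019 * x ^ 2 * x' ^ 2 * y' ^ 2 * z ^ 2 + 1792 * x ^ 2 * x' ^ 2 * y * y' * z' ^ 2
      + 5208 * x ^ 2 * x' ^ 2 * y * y' * z * z' + 3000 * x ^ 2 * x' ^ 2 * y * y' * z ^ 2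
      + 1019 * x ^ 2 * x' ^ 2 * y ^ 2 * z' ^ 2 + 3000 * x ^ 2 * x' ^ 2 * y ^ 2 * z * z'
      + 1716 * x ^ 2 * x' ^ 2 * y ^ 2 * z ^ 2 + 492 * x ^ 3 * x' * y' ^ 2 * z' ^ 2
      + 1422 * x ^ 3 * x' * y' ^ 2 * z * z' + 812 * x ^ 3 * x' * y' ^ 2 * z ^ 2
      + 1422 * x ^ 3 * x' * y * y' * z' ^ 2 + 4068 * x ^ 3 * x' * y * y' * z * z'
      + 2332 * x ^ 3 * x' * y * y' * z ^ 2 + 812 * x ^ 3 * x' * y ^ 2 * z' ^ 2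
      + 2332 * x ^ 3 * x' * y ^ 2 * z * z' + 1320 * x ^ 3 * x' * y ^ 2 * z ^ 2
      + 135 * x ^ 4 * y' ^ 2 * z' ^ 2 + 396 * x ^ 4 * y' ^ 2 * z * z'
      + 228 * x ^ 4 * y' ^ 2 * z ^ 2 + 396 * x ^ 4 * y * y' * z' ^ 2
      + 1132 * x ^ 4 * y * y' * z * z' + 648 * x ^ 4 * y * y' * z ^ 2
      + 228 * x ^ 4 * y ^ 2 * z' ^ 2 + 648 * x ^ 4 * y ^ 2 * z * z'
      + 364 * x ^ 4 * y ^ 2 * z ^ 2 := by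
    intro x' y' z' h1 h2 h3
    positivity
  have h := key _ _ _ hx' hy' hz'
  refine h.trans (le_of_eq ?_)
  unfold FF
  ring

end Pool.Agent.Helper33.FL
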