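import Pool.Agent.Helper33.FL.Cert

/-!
# Concave interpolation and the four cases
-/

namespace Pool.Agent.Helper33.FL

theorem conc (f : ℝ → ℝ) (a b c : ℝ) (hf : ∀ s, f s = a * s ^ 2 + b * s + c) (ha : a ≤ 0)
    {S S1 : ℝ} (hS : 0 ≤ S) (hS1 : S ≤ S1) (h0 : 0 ≤ f 0) (h1 : 0 ≤ f S1) : 0 ≤ f S := by
  rcases eq_or_lt_of_le (hS.trans hS1) with h | h
  · have : S = 0 := by linarith
    rw [this]
    exact h0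
  · rw [hf] at h0 h1 ⊢
    have h2 : S1 * (a * S ^ 2 + b * S + c) = (S1 - S) * (a * 0 ^ 2 + b * 0 + c)
        + S * (a * S1 ^ 2 + b * S1 + c) + (-a) * (S * S1 * (S1 - S)) := by ring
    have h3 : 0 ≤ S1 * (a * S ^ 2 + b * S + c) := by
      rw [h2]
      have e1 : 0 ≤ S1 - S := by linarith
      have e2 : 0 ≤ -a := by linarith
      have e3 := mul_nonneg e1 h0
      have e4 := mul_nonneg hS h1
      have e5 := mul_nonneg e2 (mul_nonneg (mul_nonneg hS h.le) e1)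
      linarith
    exact nonneg_of_mul_nonneg_right h3 h

theorem FF_symm (r1 r2 r4 a b k S T : ℝ) : FF r1 r2 r4 a b k S T = FF r1 r4 r2 a b k T S := by
  unfold FF
  ring

/-- concavity in the first variable -/
theorem FF_S {r1 r2 r4 a b k S1 S T : ℝ} (hS : 0 ≤ S) (hS1 : S ≤ S1)
    (hc : (1 - b) * (3 - r1 - r4) ^ 2 / 16 ≤ a * (r1 * r4 - T ^ 2 / 4) / 4)
    (h0 : 0 ≤ FF r1 r2 r4 a b k 0 T) (h1 : 0 ≤ FF r1 r2 r4 a b k S1 T) :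
    0 ≤ FF r1 r2 r4 a b k S T := by
  refine conc (fun s => FF r1 r2 r4 a b k s T)
    ((1 - b) * (3 - r1 - r4) ^ 2 / 16 - a * (r1 * r4 - T ^ 2 / 4) / 4)
    (-(b * (2 * (3 - r1 - r4) * ((3 - r1 - r2) * T - 2 * (3 / 2 - r1) * r1)) / 16))
    (a * (r1 * r2 * (r1 * r4 - T ^ 2 / 4))
      - ((3 - r1 - r2) ^ 2 * (r1 * r4 - T ^ 2 / 4) + (3 - r1 - r4) ^ 2 * (r1 * r2)) / 4
      - b * (((3 - r1 - r2) * T - 2 * (3 / 2 - r1) * r1) ^ 2 / 16) + k)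
    (fun s => ?_) (by linarith) hS hS1 h0 h1
  simp only [FF]
  ring

theorem FF_nonneg {r1 r2 r4 a b k S1 T1 S T : ℝ} (hS : 0 ≤ S) (hS1 : S ≤ S1) (hT : 0 ≤ T)
    (hT1 : T ≤ T1)
    (hcS : ∀ T, 0 ≤ T → T ≤ T1 →
      (1 - b) * (3 - r1 - r4) ^ 2 / 16 ≤ a * (r1 * r4 - T ^ 2 / 4) / 4)
    (hcT : ∀ S, 0 ≤ S → S ≤ S1 →
      (1 - b) * (3 - r1 - r2) ^ 2 / 16 ≤ a * (r1 * r2 - S ^ 2 / 4) / 4)
    (h00 : 0 ≤ FF r1 r2 r4 a b k 0 0) (h10 : 0 ≤ FF r1 r2 r4 a b k S1 0)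
    (h01 : 0 ≤ FF r1 r2 r4 a b k 0 T1) (h11 : 0 ≤ FF r1 r2 r4 a b k S1 T1) :
    0 ≤ FF r1 r2 r4 a b k S T := by
  apply FF_S hS hS1 (hcS T hT hT1)
  · rw [FF_symm] at h00 h01 ⊢
    exact FF_S hT hT1 (hcT 0 le_rfl (hS.trans hS1)) h00 h01
  · rw [FF_symm] at h10 h11 ⊢
    exact FF_S hT hT1 (hcT S1 (hS.trans hS1) le_rfl) h10 h11

theorem G_ge {r1 r2 S : ℝ} (h1 : 1 ≤ r1) (h1' : r1 ≤ 3 / 2) (h2 : 1 ≤ r2) (h2' : r2 ≤ 3 / 2)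
    (hS : 0 ≤ S) (hS1 : S ≤ r1 + r2 - 1) : 3 / 4 ≤ r1 * r2 - S ^ 2 / 4 := by
  have e1 : S ^ 2 ≤ (r1 + r2 - 1) ^ 2 := by
    apply pow_le_pow_left₀ hS hS1
  nlinarith [mul_nonneg (sub_nonneg.2 h1) (sub_nonneg.2 h2),
    mul_nonneg (sub_nonneg.2 h1) (sub_nonneg.2 h1'), mul_nonneg (sub_nonneg.2 h2) (sub_nonneg.2 h2')]

variable {r1 r2 r4 S T : ℝ}

theorem F1 (h1 : 1 ≤ r1) (h1' : r1 ≤ 3 / 2) (h2 : 1 ≤ r2) (h2' : r2 ≤ 3 / 2)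
    (h4 : 1 ≤ r4) (h4' : r4 ≤ 3 / 2)
    (hS : 0 ≤ S) (hS' : S ≤ r1 + r2 - 1) (hT : 0 ≤ T) (hT' : T ≤ r1 + r4 - 1) :
    0 ≤ FF r1 r2 r4 1 1 0 S T := by
  obtain ⟨x, rfl⟩ : ∃ x, r1 = 1 + x := ⟨r1 - 1, by ring⟩
  obtain ⟨y, rfl⟩ : ∃ y, r2 = 1 + y := ⟨r2 - 1, by ring⟩
  obtain ⟨z, rfl⟩ : ∃ z, r4 = 1 + z := ⟨r4 - 1, by ring⟩
  have hx : 0 ≤ x := by linarith
  have hy : 0 ≤ y := by linarith
  have hz : 0 ≤ z := by linarith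
  have hx' : 0 ≤ 1 / 2 - x := by linarith
  have hy' : 0 ≤ 1 / 2 - y := by linarith
  have hz' : 0 ≤ 1 / 2 - z := by linarith
  refine FF_nonneg (S1 := 1 + x + y) (T1 := 1 + x + z) hS (by linarith) hT (by linarith)
    (fun T hT hT1 => ?_) (fun S hS hS1 => ?_) (cert_F1_00 hx hy hz hx' hy' hz')
    (cert_F1_10 hx hy hz hx' hy' hz') ?_ (cert_F1_11 hx hy hz hx' hy' hz')
  · have := G_ge h1 h1' h4 h4' hT (by linarith)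
    linarith
  · have := G_ge h1 h1' h2 h2' hS (by linarith)
    linarith
  · rw [FF_symm]
    exact cert_F1_10 hx hz hy hx' hz' hy'

theorem F2 (h1 : 1 ≤ r1) (h1' : r1 ≤ 3 / 2) (h2 : 1 ≤ r2) (h2' : r2 ≤ 3 / 2)
    (h4 : 1 ≤ r4) (h4' : r4 ≤ 3 / 2)
    (hS : 0 ≤ S) (hS' : S ≤ r1 + r2 - 1) (hT : 0 ≤ T) (hT' : T ≤ r1 + r4 - 1) :
    0 ≤ FF r1 r2 r4 (250 / 321) (321 / 392) 0 S T := by
  obtain ⟨x, rfl⟩ : ∃ x, r1 = 1 + x := ⟨r1 - 1, by ring⟩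
  obtain ⟨y, rfl⟩ : ∃ y, r2 = 1 + y := ⟨r2 - 1, by ring⟩
  obtain ⟨z, rfl⟩ : ∃ z, r4 = 1 + z := ⟨r4 - 1, by ring⟩
  have hx : 0 ≤ x := by linarith
  have hy : 0 ≤ y := by linarith
  have hz : 0 ≤ z := by linarith
  have hx' : 0 ≤ 1 / 2 - x := by linarith
  have hy' : 0 ≤ 1 / 2 - y := by linarith
  have hz' : 0 ≤ 1 / 2 - z := by linarith
  refine FF_nonneg (S1 := 1 + x + y) (T1 := 1 + x + z) hS (by linarith) hT (by linarith)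
    (fun T hT hT1 => ?_) (fun S hS hS1 => ?_) (cert_F2_00 hx hy hz hx' hy' hz')
    (cert_F2_10 hx hy hz hx' hy' hz') ?_ (cert_F2_11 hx hy hz hx' hy' hz')
  · have := G_ge h1 h1' h4 h4' hT (by linarith)
    nlinarith
  · have := G_ge h1 h1' h2 h2' hS (by linarith)
    nlinarith
  · rw [FF_symm]
    exact cert_F2_10 hx hz hy hx' hz' hy'

theorem F3 (h1 : 1 ≤ r1) (h1' : r1 ≤ 3 / 2) (h2 : 1 ≤ r2) (h2' : r2 ≤ 3 / 2)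
    (h4 : 1 ≤ r4) (h4' : r4 ≤ 3 / 2)
    (hS : 0 ≤ S) (hS' : S ≤ r1 + r2 - 1) (hT : 0 ≤ T) (hT' : T ≤ r1 + r4 - 1) :
    0 ≤ FF r1 r2 r4 0 1 (466 / 1000 * r1 + (3 - r1 - r2) * (3 - r1 - r4) * r1 / 8) S T := by
  obtain ⟨x, rfl⟩ : ∃ x, r1 = 1 + x := ⟨r1 - 1, by ring⟩
  obtain ⟨y, rfl⟩ : ∃ y, r2 = 1 + y := ⟨r2 - 1, by ring⟩
  obtain ⟨z, rfl⟩ : ∃ z, r4 = 1 + z := ⟨r4 - 1, by ring⟩
  have hx : 0 ≤ x := by linarith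
  have hy : 0 ≤ y := by linarith
  have hz : 0 ≤ z := by linarith
  have hx' : 0 ≤ 1 / 2 - x := by linarith
  have hy' : 0 ≤ 1 / 2 - y := by linarith
  have hz' : 0 ≤ 1 / 2 - z := by linarith
  have e : (466 / 1000 * (1 + x) + (3 - (1 + x) - (1 + y)) * (3 - (1 + x) - (1 + z)) * (1 + x) / 8) =
      (466 / 1000 * (1 + x) + (1 - x - y) * (1 - x - z) * (1 + x) / 8) := by ring
  have e' : (466 / 1000 * (1 + x) + (1 - x - y) * (1 - x - z) * (1 + x) / 8) =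
      (466 / 1000 * (1 + x) + (1 - x - z) * (1 - x - y) * (1 + x) / 8) := by ring
  rw [e]
  refine FF_nonneg (S1 := 1 + x + y) (T1 := 1 + x + z) hS (by linarith) hT (by linarith)
    (fun T hT hT1 => ?_) (fun S hS hS1 => ?_) (cert_F3_00 hx hy hz hx' hy' hz')
    (cert_F3_10 hx hy hz hx' hy' hz') ?_ (cert_F3_11 hx hy hz hx' hy' hz')
  · simp
  · simp
  · rw [FF_symm, e']
    exact cert_F3_10 hx hz hy hx' hz' hy'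

theorem F4 (h1 : 1 ≤ r1) (h1' : r1 ≤ 3 / 2) (h2 : 1 ≤ r2) (h2' : r2 ≤ 3 / 2)
    (h4 : 1 ≤ r4) (h4' : r4 ≤ 3 / 2)
    (hS : 0 ≤ S) (hS' : S ≤ r1 + r2 - 1) (hT : 0 ≤ T) (hT' : T ≤ r1 + r4 - 1) :
    0 ≤ FF r1 r2 r4 1 1 ((3 - r1 - r2) * (3 - r1 - r4) * r1 / 8 - r1 ^ 2 / 16) S T := by
  obtain ⟨x, rfl⟩ : ∃ x, r1 = 1 + x := ⟨r1 - 1, by ring⟩
  obtain ⟨y, rfl⟩ : ∃ y, r2 = 1 + y := ⟨r2 - 1, by ring⟩
  obtain ⟨z, rfl⟩ : ∃ z, r4 = 1 + z := ⟨r4 - 1, by ring⟩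
  have hx : 0 ≤ x := by linarith
  have hy : 0 ≤ y := by linarith
  have hz : 0 ≤ z := by linarith
  have hx' : 0 ≤ 1 / 2 - x := by linarith
  have hy' : 0 ≤ 1 / 2 - y := by linarith
  have hz' : 0 ≤ 1 / 2 - z := by linarith
  have e : ((3 - (1 + x) - (1 + y)) * (3 - (1 + x) - (1 + z)) * (1 + x) / 8 - (1 + x) ^ 2 / 16) =
      ((1 - x - y) * (1 - x - z) * (1 + x) / 8 - (1 + x) ^ 2 / 16) := by ring
  have e' : ((1 - x - y) * (1 - x - z) * (1 + x) / 8 - (1 + x) ^ 2 / 16) =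
      ((1 - x - z) * (1 - x - y) * (1 + x) / 8 - (1 + x) ^ 2 / 16) := by ring
  rw [e]
  refine FF_nonneg (S1 := 1 + x + y) (T1 := 1 + x + z) hS (by linarith) hT (by linarith)
    (fun T hT hT1 => ?_) (fun S hS hS1 => ?_) (cert_F4_00 hx hy hz hx' hy' hz')
    (cert_F4_10 hx hy hz hx' hy' hz') ?_ (cert_F4_11 hx hy hz hx' hy' hz')
  · have := G_ge h1 h1' h4 h4' hT (by linarith)
    linarith
  · have := G_ge h1 h1' h2 h2' hS (by linarith)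
    linarith
  · rw [FF_symm, e']
    exact cert_F4_10 hx hz hy hx' hz' hy'

end Pool.Agent.Helper33.FL
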